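import Pool.Agent.H174.GM.Stmts3

set_option autoImplicit false

/-!
# GM A1: left Gog trapezoids and closed Gog walks (helper974)
-/

namespace Pool.Agent.H974.GM174

open Pool.Agent.R103.Gog
open Pool.Agent.H174.GM

/-- closed walks as functions of natural numbers -/
structure Wk (n k : ℕ) (v : ℕ → ℕ → ℤ) : Prop where
  z0 : ∀ j < k, v 0 j = j + 1
  zn : ∀ j < k, v n j = j + 1
  s1 : ∀ t < n, ∀ j < k, v (t + 1) j ≤ v t j + 1
  s2 : ∀ t < n, ∀ j, j + 1 < k → v t j + 1 ≤ v (t + 1) (j + 1)
  mo : ∀ t ≤ n, ∀ j, j + 1 < k → v t j < v t (j + 1)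
  po : ∀ t ≤ n, ∀ j < k, 1 ≤ v t j

lemma Wk.low {n k : ℕ} {v : ℕ → ℕ → ℤ} (h : Wk n k v) {t : ℕ} (ht : t ≤ n) :
    ∀ j, j < k → (j : ℤ) + 1 ≤ v t j := by
  intro j
  induction j with
  | zero => intro hj; have := h.po t ht 0 hj; push_cast; linarith
  | succ j ih =>
    intro hj
    have h1 := ih (by omega)
    have h2 := h.mo t ht j hj
    push_cast
    linarith

lemma Wk.up {n k : ℕ} {v : ℕ → ℕ → ℤ} (h : Wk n k v) :
    ∀ t, t ≤ n → ∀ j, j < k → v t j ≤ (j : ℤ) + 1 + t := by
  intro t
  induction t with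
  | zero => intro _ j hj; rw [h.z0 j hj]; simp
  | succ t ih =>
    intro ht j hj
    have h1 := ih (by omega) j hj
    have h2 := h.s1 t (by omega) j hj
    push_cast
    linarith

lemma Wk.virt {n k : ℕ} {v : ℕ → ℕ → ℤ} (h : Wk n k v) :
    ∀ d t, t + d = n → ∀ j, j + 1 + d ≤ k → v t j = (j : ℤ) + 1 := by
  intro d
  induction d with
  | zero =>
    intro t ht j hj
    rw [add_zero] at ht
    rw [ht]
    exact h.zn j (by omega)
  | succ d ih =>
    intro t ht j hj
    have h1 := ih (t + 1) (by omega) (j + 1) (by omega)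
    have h2 := h.s2 t (by omega) j (by omega)
    have h3 := h.low (t := t) (by omega) j (by omega)
    push_cast at h1
    linarith

/-- the triangle of a walk -/
def tri (n k : ℕ) (v : ℕ → ℕ → ℤ) : ℕ → ℕ → ℤ := fun i j =>
  if j ≤ k then (k : ℤ) + 1 + n - i - v (n - i) (k - j) else (n : ℤ) - i + j

lemma tri_gog {n k : ℕ} {v : ℕ → ℕ → ℤ} (h : Wk n k v) : IsGog n (tri n k v) := by
  refine ⟨⟨?_, ?_, ?_⟩, ?_, ?_⟩
  · intro i j hj hji hin
    unfold tri
    split_ifs with hk
    · have h1 := h.up (n - i) (by omega) (k - j) (by omega)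
      have e1 : ((n - i : ℕ) : ℤ) = n - i := by omega
      have e2 : ((k - j : ℕ) : ℤ) = k - j := by omega
      rw [e1, e2] at h1
      have h2 : (1 : ℤ) ≤ j := by exact_mod_cast hj
      linarith
    · have h2 : (1 : ℤ) ≤ j := by exact_mod_cast hj
      have h3 : (i : ℤ) ≤ n := by exact_mod_cast hin
      linarith
  · intro i j hj hji hin
    unfold tri
    by_cases hk : j ≤ k
    · rw [if_pos hk, if_pos hk]
      have h1 := h.s1 (n - (i + 1)) (by omega) (k - j) (by omega)
      have e1 : n - (i + 1) + 1 = n - i := by omega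
      rw [e1] at h1
      push_cast
      linarith
    · rw [if_neg hk, if_neg hk]
      push_cast
      linarith
  · intro i j hj hji hin
    unfold tri
    by_cases hk : j + 1 ≤ k
    · rw [if_pos hk, if_pos (by omega : j ≤ k)]
      have h1 := h.s2 (n - (i + 1)) (by omega) (k - (j + 1)) (by omega)
      have e1 : n - (i + 1) + 1 = n - i := by omega
      have e2 : k - (j + 1) + 1 = k - j := by omega
      rw [e1, e2] at h1
      push_cast
      linarith
    · rw [if_neg hk]
      by_cases hk2 : j ≤ k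
      · rw [if_pos hk2]
        have hjk : j = k := by omega
        have h1 := h.po (n - i) (by omega) (k - j) (by omega)
        subst hjk
        push_cast
        linarith
      · rw [if_neg hk2]
        push_cast
        linarith
  · intro i j hj hji hin
    unfold tri
    by_cases hk : j + 1 ≤ k
    · rw [if_pos hk, if_pos (by omega : j ≤ k)]
      have h1 := h.mo (n - i) (by omega) (k - (j + 1)) (by omega)
      have e2 : k - (j + 1) + 1 = k - j := by omega
      rw [e2] at h1
      linarith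
    · rw [if_neg hk]
      by_cases hk2 : j ≤ k
      · rw [if_pos hk2]
        have hjk : j = k := by omega
        have h1 := h.po (n - i) (by omega) (k - j) (by omega)
        subst hjk
        push_cast
        linarith
      · rw [if_neg hk2]
        push_cast
        linarith
  · intro j hj hjn
    unfold tri
    split_ifs with hk
    · rw [Nat.sub_self, h.z0 (k - j) (by omega)]
      have e2 : ((k - j : ℕ) : ℤ) = k - j := by omega
      rw [e2]
      ring
    · ring

/-- the walk of a triangle -/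
def wlk (n k : ℕ) (X : ℕ → ℕ → ℤ) : ℕ → ℕ → ℤ := fun t j =>
  if k - j ≤ n - t then (k : ℤ) + 1 + t - X (n - t) (k - j) else (j : ℤ) + 1

lemma gog_up {n : ℕ} {X : ℕ → ℕ → ℤ} (h : IsGog n X) :
    ∀ d i, i + d = n → ∀ j, 1 ≤ j → j ≤ i → X i j ≤ (n : ℤ) - i + j := by
  intro d
  induction d with
  | zero =>
    intro i hi j hj hji
    rw [add_zero] at hi
    subst hi
    rw [h.2.2 j hj hji]
    linarith
  | succ d ih =>
    intro i hi j hj hji
    have h1 := h.1.upp i j hj hji (by omega)
    have h2 := ih (i + 1) (by omega) (j + 1) (by omega) (by omega)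
    push_cast at h2
    linarith

lemma wlk_low {n k : ℕ} {X : ℕ → ℕ → ℤ} (h : IsGog n X) (t j : ℕ) (ht : t ≤ n) (hj : j < k) :
    (j : ℤ) + 1 ≤ wlk n k X t j := by
  unfold wlk
  split_ifs with hk
  · have h1 := gog_up h t (n - t) (by omega) (k - j) (by omega) hk
    have e1 : ((n - t : ℕ) : ℤ) = n - t := by omega
    have e2 : ((k - j : ℕ) : ℤ) = k - j := by omega
    rw [e1, e2] at h1
    linarith
  · exact le_refl _

lemma wlk_wk {n k : ℕ} (hkn : k ≤ n) {X : ℕ → ℕ → ℤ} (h : IsGog n X) : Wk n k (wlk n k X) := by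
  refine ⟨?_, ?_, ?_, ?_, ?_, ?_⟩
  · intro j hj
    unfold wlk
    rw [if_pos (by omega), Nat.sub_zero, h.2.2 (k - j) (by omega) (by omega)]
    have e2 : ((k - j : ℕ) : ℤ) = k - j := by omega
    rw [e2]
    push_cast
    ring
  · intro j hj
    unfold wlk
    rw [if_neg (by omega)]
  · intro t ht j hj
    by_cases hk : k - j ≤ n - (t + 1)
    · unfold wlk
      rw [if_pos hk, if_pos (by omega)]
      have h1 := h.1.low (n - (t + 1)) (k - j) (by omega) hk (by omega)
      have e1 : n - (t + 1) + 1 = n - t := by omega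
      rw [e1] at h1
      push_cast
      linarith
    · have h1 := wlk_low (k := k) h t j (by omega) hj
      have h2 : wlk n k X (t + 1) j = (j : ℤ) + 1 := by
        unfold wlk
        rw [if_neg hk]
      linarith
  · intro t ht j hj
    by_cases hk : k - j ≤ n - t
    · unfold wlk
      rw [if_pos hk, if_pos (by omega)]
      have h1 := h.1.upp (n - (t + 1)) (k - (j + 1)) (by omega) (by omega) (by omega)
      have e1 : n - (t + 1) + 1 = n - t := by omega
      have e2 : k - (j + 1) + 1 = k - j := by omega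
      rw [e1, e2] at h1
      push_cast
      linarith
    · unfold wlk
      rw [if_neg hk, if_neg (by omega)]
      push_cast
      linarith
  · intro t ht j hj
    by_cases hk : k - j ≤ n - t
    · unfold wlk
      rw [if_pos hk, if_pos (by omega)]
      have h1 := h.2.1 (n - t) (k - (j + 1)) (by omega) (by omega) (by omega)
      have e2 : k - (j + 1) + 1 = k - j := by omega
      rw [e2] at h1
      linarith
    · have h1 := wlk_low (k := k) h t (j + 1) ht (by omega)
      have h2 : wlk n k X t j = (j : ℤ) + 1 := by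
        unfold wlk
        rw [if_neg hk]
      push_cast at h1
      linarith
  · intro t ht j hj
    have h1 := wlk_low (k := k) h t j ht hj
    have h2 : (0 : ℤ) ≤ j := Int.natCast_nonneg j
    linarith

/-- the set of walks -/
def WS (n k : ℕ) : Set (Fin (n + 1) → (Fin k → ℕ)) :=
  {w | w 0 = st k ∧ w (Fin.last n) = st k ∧
    ∀ t : Fin n, Step (w t.castSucc) (w t.succ) ∧ StrictMono (w t.succ) ∧ ∀ i, 1 ≤ w t.succ i}

/-- extension to the natural numbers -/
def ext {n k : ℕ} (w : Fin (n + 1) → (Fin k → ℕ)) : ℕ → ℕ → ℤ := fun t j =>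
  if h : t < n + 1 ∧ j < k then (w ⟨t, h.1⟩ ⟨j, h.2⟩ : ℤ) else 0

lemma ext_eq {n k : ℕ} (w : Fin (n + 1) → (Fin k → ℕ)) (t j : ℕ) (ht : t < n + 1) (hj : j < k) :
    ext w t j = (w ⟨t, ht⟩ ⟨j, hj⟩ : ℤ) := by
  unfold ext
  rw [dif_pos ⟨ht, hj⟩]

lemma ext_wk {n k : ℕ} {w : Fin (n + 1) → (Fin k → ℕ)} (hw : w ∈ WS n k) : Wk n k (ext w) := by
  obtain ⟨h0, hn, hs⟩ := hw
  have hz0 : ∀ j < k, ext w 0 j = j + 1 := by
    intro j hj
    rw [ext_eq w 0 j (by omega) hj]
    have h1 := congrFun h0 ⟨j, hj⟩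
    have h2 : w ⟨0, by omega⟩ ⟨j, hj⟩ = j + 1 := h1
    rw [h2]
    push_cast
    ring
  refine ⟨hz0, ?_, ?_, ?_, ?_, ?_⟩
  · intro j hj
    rw [ext_eq w n j (by omega) hj]
    have h1 := congrFun hn ⟨j, hj⟩
    have h2 : w ⟨n, by omega⟩ ⟨j, hj⟩ = j + 1 := h1
    rw [h2]
    push_cast
    ring
  · intro t ht j hj
    rw [ext_eq w t j (by omega) hj, ext_eq w (t + 1) j (by omega) hj]
    have h1 := (hs ⟨t, ht⟩).1.1 ⟨j, hj⟩
    have h2 : w ⟨t + 1, by omega⟩ ⟨j, hj⟩ ≤ w ⟨t, by omega⟩ ⟨j, hj⟩ + 1 := h1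
    exact_mod_cast h2
  · intro t ht j hj
    rw [ext_eq w t j (by omega) (by omega), ext_eq w (t + 1) (j + 1) (by omega) hj]
    have h1 := (hs ⟨t, ht⟩).1.2 ⟨j, by omega⟩ ⟨j + 1, hj⟩ rfl
    have h2 : w ⟨t, by omega⟩ ⟨j, by omega⟩ + 1 ≤ w ⟨t + 1, by omega⟩ ⟨j + 1, hj⟩ := h1
    exact_mod_cast h2
  · intro t ht j hj
    rcases t with _ | t
    · rw [hz0 j (by omega), hz0 (j + 1) hj]
      push_cast
      linarith
    · rw [ext_eq w (t + 1) j (by omega) (by omega), ext_eq w (t + 1) (j + 1) (by omega) hj]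
      have h0 : (⟨j, by omega⟩ : Fin k) < ⟨j + 1, hj⟩ := by
        rw [Fin.lt_def]; exact Nat.lt_succ_self j
      have h1 := (hs ⟨t, by omega⟩).2.1 h0
      have h2 : w ⟨t + 1, by omega⟩ ⟨j, by omega⟩ < w ⟨t + 1, by omega⟩ ⟨j + 1, hj⟩ := h1
      exact_mod_cast h2
  · intro t ht j hj
    rcases t with _ | t
    · rw [hz0 j hj]
      have h2 : (0 : ℤ) ≤ j := Int.natCast_nonneg j
      linarith
    · rw [ext_eq w (t + 1) j (by omega) hj]
      have h1 := (hs ⟨t, by omega⟩).2.2 ⟨j, hj⟩
      have h2 : 1 ≤ w ⟨t + 1, by omega⟩ ⟨j, hj⟩ := h1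
      exact_mod_cast h2

/-- restriction to the finite index sets -/
def rst (n k : ℕ) (v : ℕ → ℕ → ℤ) : Fin (n + 1) → (Fin k → ℕ) := fun t j => (v t.1 j.1).toNat

lemma rst_cast {n k : ℕ} {v : ℕ → ℕ → ℤ} (h : Wk n k v) (t : Fin (n + 1)) (j : Fin k) :
    ((rst n k v t j : ℕ) : ℤ) = v t.1 j.1 := by
  have h1 := h.po t.1 (by omega) j.1 j.2
  unfold rst
  rw [Int.toNat_of_nonneg (by linarith)]

lemma strict_aux {k : ℕ} {v : ℕ → ℤ} (h : ∀ j, j + 1 < k → v j < v (j + 1)) :
    ∀ j i, i < j → j < k → v i < v j := by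
  intro j
  induction j with
  | zero => intro i hi; omega
  | succ j ih =>
    intro i hi hj
    rcases Nat.lt_succ_iff_lt_or_eq.mp hi with h1 | h1
    · exact lt_trans (ih i h1 (by omega)) (h j hj)
    · rw [h1]; exact h j hj

lemma rst_mem {n k : ℕ} {v : ℕ → ℕ → ℤ} (h : Wk n k v) : rst n k v ∈ WS n k := by
  refine ⟨?_, ?_, ?_⟩
  · funext j
    have h1 := rst_cast h 0 j
    have h2 := h.z0 j.1 j.2
    have h3 : ((0 : Fin (n + 1)) : ℕ) = 0 := rfl
    rw [h3, h2] at h1
    have h4 : rst n k v 0 j = j.1 + 1 := by exact_mod_cast h1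
    exact h4
  · funext j
    have h1 := rst_cast h (Fin.last n) j
    have h2 := h.zn j.1 j.2
    rw [Fin.val_last, h2] at h1
    have h4 : rst n k v (Fin.last n) j = j.1 + 1 := by exact_mod_cast h1
    exact h4
  · intro t
    refine ⟨⟨?_, ?_⟩, ?_, ?_⟩
    · intro j
      have h1 := rst_cast h t.castSucc j
      have h2 := rst_cast h t.succ j
      have h3 := h.s1 t.1 t.2 j.1 j.2
      rw [Fin.val_castSucc] at h1
      rw [Fin.val_succ] at h2
      rw [← h1, ← h2] at h3
      exact_mod_cast h3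
    · intro i j hij
      have h1 := rst_cast h t.castSucc i
      have h2 := rst_cast h t.succ j
      have h3 := h.s2 t.1 t.2 i.1 (by omega)
      rw [Fin.val_castSucc] at h1
      rw [Fin.val_succ] at h2
      rw [hij, ← h1, ← h2] at h3
      exact_mod_cast h3
    · intro i j hij
      have h1 := rst_cast h t.succ i
      have h2 := rst_cast h t.succ j
      have h3 := strict_aux (h.mo (t.1 + 1) (by omega)) j.1 i.1 hij j.2
      rw [Fin.val_succ] at h1 h2
      rw [← h1, ← h2] at h3
      exact_mod_cast h3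
    · intro i
      have h1 := rst_cast h t.succ i
      have h3 := h.po (t.1 + 1) (by omega) i.1 i.2
      rw [Fin.val_succ] at h1
      rw [← h1] at h3
      exact_mod_cast h3

theorem a1 (h1 : S_WG) : Pool.Agent.H174.GM.S_A1 := by
  intro n k hk hkn
  unfold gogW
  rw [h1 k n (st k)]
  symm
  refine Set.ncard_congr (s := WS n k)
    (fun w _ => (fun p : LeftIdx n k => tri n k (ext w) p.1.1 p.1.2)) ?_ ?_ ?_
  · intro w hw
    exact ⟨tri n k (ext w), tri_gog (ext_wk hw), fun p => rfl⟩
  · intro w w' hw hw' heq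
    have hv := ext_wk hw
    have hv' := ext_wk hw'
    funext t j
    have key : ext w t.1 j.1 = ext w' t.1 j.1 := by
      by_cases hr : k - j.1 ≤ n - t.1
      · have h2 := congrFun heq (⟨(n - t.1, k - j.1), by omega, hr, by omega, by omega⟩ :
          LeftIdx n k)
        have e1 : n - (n - t.1) = t.1 := by omega
        have e2 : k - (k - j.1) = j.1 := by omega
        simp only [tri] at h2
        rw [if_pos (by omega), if_pos (by omega), e1, e2] at h2
        linarith
      · rw [hv.virt (n - t.1) t.1 (by omega) j.1 (by omega),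
          hv'.virt (n - t.1) t.1 (by omega) j.1 (by omega)]
    rw [ext_eq w t.1 j.1 t.2 j.2, ext_eq w' t.1 j.1 t.2 j.2] at key
    exact_mod_cast key
  · intro f hf
    obtain ⟨X, hX, hfX⟩ := hf
    have hv := wlk_wk hkn hX
    refine ⟨rst n k (wlk n k X), rst_mem hv, ?_⟩
    funext p
    rw [hfX p]
    obtain ⟨⟨i, c⟩, hc1, hci, hin, hck⟩ := p
    simp only at hc1 hci hin hck ⊢
    have e1 : ext (rst n k (wlk n k X)) (n - i) (k - c) = wlk n k X (n - i) (k - c) := by
      rw [ext_eq _ (n - i) (k - c) (by omega) (by omega)]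
      exact rst_cast hv ⟨n - i, by omega⟩ ⟨k - c, by omega⟩
    unfold tri
    rw [if_pos hck, e1]
    unfold wlk
    have e2 : n - (n - i) = i := by omega
    have e3 : k - (k - c) = c := by omega
    rw [e2, e3, if_pos hci]
    have e4 : ((n - i : ℕ) : ℤ) = n - i := by omega
    rw [e4]
    ring

end Pool.Agent.H974.GM174
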