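import Pool.Agent.H174.GM.Stmts

set_option autoImplicit false

/-!
# GM BAR2: partial fractions with simple nodes and a pole at `0` (helper974)
-/

namespace Pool.Agent.H974.GM174

open Finset Polynomial

/-- `1/(u-s) - ∑_{l<N} s^l/u^{l+1} = s^N / (u^N (u - s))` -/
lemma geom_aux {K : Type} [Field K] (u s : K) (hu : u ≠ 0) (hus : u - s ≠ 0) (N : ℕ) :
    1 / (u - s) - ∑ l ∈ Finset.range N, s ^ l / u ^ (l + 1) = s ^ N / (u ^ N * (u - s)) := by
  induction N with
  | zero => simp
  | succ n ih =>
    rw [Finset.sum_range_succ, ← sub_sub, ih]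
    field_simp
    ring

/-- the quotient by a product of linear factors has coefficients in the subfield -/
lemma coeff_div_mem {K : Type} [Field K] (L : Subfield K) {ι : Type} [Fintype ι]
    (s : ι → K) (B : Polynomial K) (hs : ∀ i, s i ∈ L) (hB : ∀ i, B.coeff i ∈ L) (i : ℕ) :
    (B /ₘ Lagrange.nodal univ s).coeff i ∈ L := by
  have h1 : B ∈ Polynomial.lifts L.subtype := by
    rw [Polynomial.lifts_iff_coeff_lifts]
    intro n
    exact ⟨⟨B.coeff n, hB n⟩, rfl⟩
  obtain ⟨B', hB'⟩ := (Polynomial.mem_lifts _).mp h1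
  set P' : Polynomial L := ∏ i : ι, (X - C (⟨s i, hs i⟩ : L)) with hP'
  have hmon : P'.Monic := Polynomial.monic_prod_of_monic _ _ fun i _ => Polynomial.monic_X_sub_C _
  have hmap : P'.map L.subtype = Lagrange.nodal univ s := by
    rw [hP', Polynomial.map_prod, Lagrange.nodal_eq]
    refine Finset.prod_congr rfl fun i _ => ?_
    rw [Polynomial.map_sub, Polynomial.map_X, Polynomial.map_C]
    rfl
  rw [← hB', ← hmap, ← Polynomial.map_divByMonic _ hmon, Polynomial.coeff_map]
  exact (((B' /ₘ P').coeff i : L)).2

theorem bar2 : Pool.Agent.H174.GM.S_BAR2 := by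
  intro K _ L ι _ _ s N B hs hB hinj hs0 hdeg
  set P : Polynomial K := Lagrange.nodal univ s with hP
  have hmon : P.Monic := Lagrange.nodal_monic
  have hPdeg : P.natDegree = Fintype.card ι := by
    rw [hP, Lagrange.natDegree_nodal, Finset.card_univ]
  refine ⟨B /ₘ P, fun i => coeff_div_mem L s B hs hB i, ?_, ?_⟩
  · by_cases h : B /ₘ P = 0
    · exact Or.inl h
    · right
      rw [Polynomial.natDegree_divByMonic _ hmon, hPdeg]
      have h1 : ¬ B.degree < P.degree := fun h2 => h ((Polynomial.divByMonic_eq_zero_iff hmon).mpr h2)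
      have h2 : Fintype.card ι ≤ B.natDegree := by
        by_contra h3
        push Not at h3
        apply h1
        apply Polynomial.degree_lt_degree
        rw [hPdeg]
        exact h3
      omega
  · intro u hu hus
    have hPu : P.eval u = ∏ i, (u - s i) := by rw [hP, Lagrange.eval_nodal]
    have hPu0 : P.eval u ≠ 0 := Lagrange.eval_nodal_not_at_node fun i _ => hus i
    have hinj' : Set.InjOn s (univ : Finset ι) := fun a _ b _ h => hinj h
    have hR : B %ₘ P = Lagrange.interpolate univ s (fun i => B.eval (s i)) := by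
      refine Lagrange.eq_interpolate_of_eval_eq _ hinj' ?_ ?_
      · have h1 := Polynomial.degree_modByMonic_lt B hmon
        rw [hP, Lagrange.degree_nodal] at h1
        exact h1
      · intro i hi
        have h1 := congrArg (Polynomial.eval (s i)) (Polynomial.modByMonic_add_div B P)
        rw [Polynomial.eval_add, Polynomial.eval_mul, hP, Lagrange.eval_nodal_at_node hi, zero_mul,
          add_zero] at h1
        exact h1
    have hBu : B.eval u = P.eval u * ∑ i, Lagrange.nodalWeight univ s i * (u - s i)⁻¹ * B.eval (s i)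
        + P.eval u * (B /ₘ P).eval u := by
      have h1 := congrArg (Polynomial.eval u) (Polynomial.modByMonic_add_div B P)
      rw [Polynomial.eval_add, Polynomial.eval_mul, hR,
        Lagrange.eval_interpolate_not_at_node _ (fun i _ => hus i)] at h1
      exact h1.symm
    rw [← hPu, hBu]
    have huN : u ^ N ≠ 0 := pow_ne_zero _ hu
    have e1 : (P.eval u * ∑ i, Lagrange.nodalWeight univ s i * (u - s i)⁻¹ * B.eval (s i)
        + P.eval u * (B /ₘ P).eval u) / (u ^ N * P.eval u) =
        (B /ₘ P).eval u / u ^ N +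
        ∑ i, (Lagrange.nodalWeight univ s i * (u - s i)⁻¹ * B.eval (s i)) / u ^ N := by
      rw [← Finset.sum_div]
      field_simp
      ring
    rw [e1]
    congr 1
    refine Finset.sum_congr rfl fun i _ => ?_
    have hui : u - s i ≠ 0 := sub_ne_zero.mpr (hus i)
    rw [geom_aux u (s i) hu hui N]
    have hw : Lagrange.nodalWeight univ s i =
        (∏ i' ∈ univ.filter (fun i' => i' ≠ i), (s i - s i'))⁻¹ := by
      rw [Lagrange.nodalWeight, ← Finset.prod_inv_distrib]
      refine Finset.prod_congr ?_ fun _ _ => rfl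
      ext j
      simp [and_comm]
    have hprod : (∏ i' ∈ univ.filter (fun i' => i' ≠ i), (s i - s i')) ≠ 0 := by
      rw [Finset.prod_ne_zero_iff]
      intro j hj
      rw [Finset.mem_filter] at hj
      exact sub_ne_zero.mpr fun h => hj.2 (hinj h).symm
    rw [hw]
    have hsN : s i ^ N ≠ 0 := pow_ne_zero _ (hs0 i)
    generalize (∏ i' ∈ univ.filter (fun i' => i' ≠ i), (s i - s i')) = W at hprod
    field_simp

end Pool.Agent.H974.GM174
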